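import Mathlib

/-!
# The neighbour-locating chromatic number of a Mycielski graph need not be one larger

For the cycle `C_23` we have `χ_NL(C_23) = 5`: with four colours there are only `24` possible pairs
(colour of a vertex, set of colours of its neighbours), and if exactly one of them is missing, then for some
colours `a, b` the numbers of pairs of neighbours coloured `(a, b)` and `(b, a)` would differ. On the other
hand the Mycielski graph of `C_23` has a neighbour-locating colouring with five colours.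
-/

set_option autoImplicit false

namespace Pool.Agent.Results.MP_03cbb9_co.MycielskiCycle

open SimpleGraph Finset

/-- Neighbour-locating colouring: a proper colouring such that two distinct vertices of the same colour
have neighbourhoods with different colour sets. -/
def IsNL {V α : Type} (G : SimpleGraph V) (c : V → α) : Prop :=
  (∀ u v, G.Adj u v → c u ≠ c v) ∧
    ∀ u v, u ≠ v → c u = c v → c '' G.neighborSet u ≠ c '' G.neighborSet v

/-- The neighbour-locating chromatic number. -/
noncomputable def nlChromaticNumber {V : Type} (G : SimpleGraph V) : ℕ :=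
  sInf {k | ∃ c : V → Fin k, IsNL G c}

/-- The adjacency of the Mycielski graph on the vertices `u_i` (`inl i`), `u_i'` (`inr (inl i)`) and `w`
(`inr (inr ())`). -/
def mAdj {V : Type} (G : SimpleGraph V) : V ⊕ V ⊕ Unit → V ⊕ V ⊕ Unit → Prop
  | .inl u, .inl v => G.Adj u v
  | .inl u, .inr (.inl v) => G.Adj u v
  | .inr (.inl u), .inl v => G.Adj u v
  | .inr (.inl _), .inr (.inr _) => True
  | .inr (.inr _), .inr (.inl _) => True
  | _, _ => False

/-- The Mycielski graph `μ(G)`. -/
def mycielski {V : Type} (G : SimpleGraph V) : SimpleGraph (V ⊕ V ⊕ Unit) where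
  Adj := mAdj G
  symm := ⟨by
    rintro (u | u | u) (v | v | v) h <;> simp only [mAdj] at h ⊢ <;> exact h.symm⟩
  loopless := ⟨by
    rintro (u | u | u) h <;> simp only [mAdj] at h
    exact G.loopless.irrefl _ h⟩

/-! ### Four colours are not enough for `C_23` -/

/-- the possible types of a vertex -/
def P : Finset (Fin 4 × Finset (Fin 4)) :=
  univ.filter fun t => t.1 ∉ t.2 ∧ 1 ≤ t.2.card ∧ t.2.card ≤ 2

/-- the number of neighbours of colour `b` of a vertex of type `t`, if its colour is `a` -/
def w (a b : Fin 4) (t : Fin 4 × Finset (Fin 4)) : ℕ :=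
  if t.1 = a ∧ b ∈ t.2 then (if t.2.card = 1 then 2 else 1) else 0

theorem card_P : P.card = 24 := by decide +kernel

theorem sum_P : ∀ a b : Fin 4, a ≠ b → ∑ t ∈ P, w a b t = 4 := by decide +kernel

theorem w_pair (a b x y z : Fin 4) : w a b (x, {y, z}) =
    (if x = a ∧ y = b then 1 else 0) + (if x = a ∧ z = b then 1 else 0) := by
  revert a b x y z
  decide +kernel

theorem not_four (c : Fin 23 → Fin 4) (h : IsNL (cycleGraph 23) c) : False := by
  obtain ⟨h1, h2⟩ := h
  set t : Fin 23 → Fin 4 × Finset (Fin 4) := fun i => (c i, {c (i - 1), c (i + 1)}) with ht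
  have hadj1 : ∀ i : Fin 23, (cycleGraph 23).Adj i (i - 1) := by
    intro i
    rw [cycleGraph_adj]
    left
    abel
  have hadj2 : ∀ i : Fin 23, (cycleGraph 23).Adj i (i + 1) := by
    intro i
    rw [cycleGraph_adj]
    right
    abel
  have hinj : Function.Injective t := by
    intro i j hij
    by_contra hne
    rw [ht] at hij
    rw [Prod.mk.injEq] at hij
    apply h2 i j hne hij.1
    rw [cycleGraph_neighborSet, cycleGraph_neighborSet, Set.image_pair, Set.image_pair]
    have := congrArg (fun s : Finset (Fin 4) => (s : Set (Fin 4))) hij.2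
    simpa using this
  have hmem : ∀ i, t i ∈ P := by
    intro i
    rw [P, mem_filter]
    refine ⟨mem_univ _, ?_, ?_, ?_⟩
    · rw [ht]
      simp only [mem_insert, mem_singleton, not_or]
      exact ⟨h1 _ _ (hadj1 i), h1 _ _ (hadj2 i)⟩
    · exact Finset.card_pos.2 ⟨c (i - 1), by rw [ht]; simp⟩
    · exact Finset.card_le_two
  -- the image of `t` misses exactly one type
  have hI : (univ.image t).card = 23 := by
    rw [card_image_of_injective _ hinj, card_univ, Fintype.card_fin]
  have hsub : univ.image t ⊆ P := by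
    intro x hx
    obtain ⟨i, -, rfl⟩ := mem_image.1 hx
    exact hmem i
  have hd : (P \ univ.image t).card = 1 := by
    rw [card_sdiff_of_subset hsub, card_P, hI]
  obtain ⟨τ, hτ⟩ := card_eq_one.1 hd
  have hτP : τ ∈ P := by
    have : τ ∈ P \ univ.image t := by rw [hτ]; exact mem_singleton_self _
    exact (mem_sdiff.1 this).1
  have hsum : ∀ a b : Fin 4, a ≠ b → w a b τ + ∑ i, w a b (t i) = 4 := by
    intro a b hab
    rw [← sum_P a b hab, ← sum_sdiff hsub, hτ, sum_singleton, sum_image (fun x _ y _ e => hinj e)]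
  have hsym : ∀ a b : Fin 4, ∑ i, w a b (t i) = ∑ i, w b a (t i) := by
    intro a b
    have e1 : ∀ a b : Fin 4, ∑ i, w a b (t i) =
        ∑ i, (if c i = a ∧ c (i - 1) = b then 1 else 0) +
        ∑ i, (if c i = a ∧ c (i + 1) = b then 1 else 0) := by
      intro a b
      rw [← sum_add_distrib]
      apply sum_congr rfl
      intro i _
      exact w_pair a b _ _ _
    have e2 : ∀ a b : Fin 4, ∑ i, (if c i = a ∧ c (i - 1) = b then 1 else 0) =
        ∑ i, (if c i = b ∧ c (i + 1) = a then 1 else 0) := by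
      intro a b
      rw [← Equiv.sum_comp (Equiv.addRight (1 : Fin 23))]
      apply sum_congr rfl
      intro i _
      simp only [Equiv.coe_addRight, add_sub_cancel_right]
      simp only [and_comm]
    rw [e1, e1, e2 a b, e2 b a, add_comm]
  rw [P, mem_filter] at hτP
  obtain ⟨-, hτ1, hτ2, -⟩ := hτP
  obtain ⟨b, hb⟩ := card_pos.1 hτ2
  have hne : τ.1 ≠ b := fun e => hτ1 (e ▸ hb)
  have s1 := hsum τ.1 b hne
  have s2 := hsum b τ.1 hne.symm
  rw [hsym b τ.1] at s2
  have w1 : 1 ≤ w τ.1 b τ := by
    unfold w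
    rw [if_pos ⟨rfl, hb⟩]
    split_ifs <;> omega
  have w2 : w b τ.1 τ = 0 := by
    unfold w
    rw [if_neg (fun e => hne e.1)]
  omega

theorem five_le (k : ℕ) (c : Fin 23 → Fin k) (h : IsNL (cycleGraph 23) c) : 5 ≤ k := by
  by_contra hk
  have hk4 : k ≤ 4 := by omega
  apply not_four (fun i => Fin.castLE hk4 (c i))
  refine ⟨fun u v huv e => h.1 u v huv (Fin.castLE_injective hk4 e), ?_⟩
  intro u v huv e he
  apply h.2 u v huv (Fin.castLE_injective hk4 e)
  have := Set.image_injective.2 (Fin.castLE_injective hk4)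
  apply this
  rw [Set.image_image, Set.image_image]
  exact he

/-! ### Five colours for `C_23` and for its Mycielski graph -/

/-- a neighbour-locating colouring of `C_23` -/
def c0 (i : Fin 23) : Fin 5 :=
  ([0, 1, 3, 0, 3, 0, 4, 3, 4, 1, 3, 1, 3, 2, 4, 3, 0, 2, 4, 1, 2, 0, 1] : List (Fin 5)).getD i.val 0

/-- the colours of the vertices `u_i` -/
def c1 (i : Fin 23) : Fin 5 :=
  ([2, 3, 4, 2, 3, 2, 1, 0, 1, 3, 0, 3, 0, 1, 0, 1, 0, 4, 1, 4, 2, 4, 0] : List (Fin 5)).getD i.val 0

/-- the colours of the vertices `u_i'` -/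
def c2 (i : Fin 23) : Fin 5 :=
  ([1, 3, 0, 1, 1, 2, 1, 3, 2, 3, 0, 2, 0, 3, 0, 1, 2, 2, 1, 3, 2, 3, 0] : List (Fin 5)).getD i.val 0

theorem nl_cycle : IsNL (cycleGraph 23) c0 := by
  constructor
  · intro u v h
    rw [cycleGraph_adj] at h
    revert u v
    decide +kernel
  · intro u v huv hc
    rw [cycleGraph_neighborSet, cycleGraph_neighborSet, Set.image_pair, Set.image_pair]
    intro he
    have h2 : ({c0 (u - 1), c0 (u + 1)} : Finset (Fin 5)) = {c0 (v - 1), c0 (v + 1)} := by
      apply Finset.coe_injective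
      simpa using he
    clear he
    revert u v
    decide +kernel

/-- the colouring of the Mycielski graph -/
def cm : Fin 23 ⊕ Fin 23 ⊕ Unit → Fin 5
  | .inl i => c1 i
  | .inr (.inl i) => c2 i
  | .inr (.inr _) => 4

/-- the colour sets of the neighbourhoods -/
def T : Fin 23 ⊕ Fin 23 ⊕ Unit → Finset (Fin 5)
  | .inl i => {c1 (i - 1), c1 (i + 1), c2 (i - 1), c2 (i + 1)}
  | .inr (.inl i) => {c1 (i - 1), c1 (i + 1), 4}
  | .inr (.inr _) => {0, 1, 2, 3}

theorem image_c2 : ∀ x : Fin 5, (∃ i, c2 i = x) ↔ x ∈ ({0, 1, 2, 3} : Finset (Fin 5)) := by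
  decide +kernel

theorem coe_T (x : Fin 23 ⊕ Fin 23 ⊕ Unit) :
    cm '' (mycielski (cycleGraph 23)).neighborSet x = (T x : Set (Fin 5)) := by
  have hN : ∀ i j : Fin 23, (cycleGraph 23).Adj i j ↔ j = i - 1 ∨ j = i + 1 := by
    intro i j
    rw [← mem_neighborSet, cycleGraph_neighborSet]
    simp
  ext a
  rw [Set.mem_image]
  rcases x with i | i | i
  · constructor
    · rintro ⟨y, hy, rfl⟩
      rcases y with j | j | j
      · have hj : j = i - 1 ∨ j = i + 1 := (hN i j).1 hy
        rcases hj with rfl | rfl <;> simp [cm, T]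
      · have hj : j = i - 1 ∨ j = i + 1 := (hN i j).1 hy
        rcases hj with rfl | rfl <;> simp [cm, T]
      · exact absurd hy (by simp [mycielski, mAdj, mem_neighborSet])
    · intro ha
      simp only [T, Finset.coe_insert, Finset.coe_singleton, Set.mem_insert_iff,
        Set.mem_singleton_iff] at ha
      rcases ha with rfl | rfl | rfl | rfl
      · exact ⟨.inl (i - 1), (hN i _).2 (Or.inl rfl), rfl⟩
      · exact ⟨.inl (i + 1), (hN i _).2 (Or.inr rfl), rfl⟩
      · exact ⟨.inr (.inl (i - 1)), (hN i _).2 (Or.inl rfl), rfl⟩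
      · exact ⟨.inr (.inl (i + 1)), (hN i _).2 (Or.inr rfl), rfl⟩
  · constructor
    · rintro ⟨y, hy, rfl⟩
      rcases y with j | j | j
      · have hj : j = i - 1 ∨ j = i + 1 := (hN i j).1 hy
        rcases hj with rfl | rfl <;> simp [cm, T]
      · exact absurd hy (by simp [mycielski, mAdj, mem_neighborSet])
      · simp [cm, T]
    · intro ha
      simp only [T, Finset.coe_insert, Finset.coe_singleton, Set.mem_insert_iff,
        Set.mem_singleton_iff] at ha
      rcases ha with rfl | rfl | rfl
      · exact ⟨.inl (i - 1), (hN i _).2 (Or.inl rfl), rfl⟩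
      · exact ⟨.inl (i + 1), (hN i _).2 (Or.inr rfl), rfl⟩
      · exact ⟨.inr (.inr ()), trivial, rfl⟩
  · rw [T, mem_coe, ← image_c2]
    constructor
    · rintro ⟨y, hy, rfl⟩
      rcases y with j | j | j
      · exact absurd hy (by simp [mycielski, mAdj, mem_neighborSet])
      · exact ⟨j, rfl⟩
      · exact absurd hy (by simp [mycielski, mAdj, mem_neighborSet])
    · rintro ⟨j, rfl⟩
      exact ⟨.inr (.inl j), trivial, rfl⟩

theorem key : ∀ x y : Fin 23 ⊕ Fin 23 ⊕ Unit, x ≠ y → cm x = cm y → T x ≠ T y := by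
  decide +kernel

theorem own : ∀ x : Fin 23 ⊕ Fin 23 ⊕ Unit, cm x ∉ T x := by
  decide +kernel

theorem nl_mycielski : IsNL (mycielski (cycleGraph 23)) cm := by
  constructor
  · intro u v h e
    have h1 : cm v ∈ cm '' (mycielski (cycleGraph 23)).neighborSet u := ⟨v, h, rfl⟩
    rw [coe_T, mem_coe, ← e] at h1
    exact own u h1
  · intro u v huv hc
    rw [coe_T, coe_T]
    exact fun he => key u v huv hc (Finset.coe_injective he)

/-- The neighbour-locating chromatic number of `μ(C_23)` is at most `5 = χ_NL(C_23)`; so it is not true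
that `χ_NL(μ(G)) = χ_NL(G) + 1` for every graph `G`. -/
theorem result : nlChromaticNumber (cycleGraph 23) = 5 ∧
    nlChromaticNumber (mycielski (cycleGraph 23)) ≤ 5 ∧
    ¬ ∀ (n : ℕ) (G : SimpleGraph (Fin n)),
      nlChromaticNumber (mycielski G) = nlChromaticNumber G + 1 := by
  have hC : nlChromaticNumber (cycleGraph 23) = 5 := by
    apply le_antisymm
    · exact Nat.sInf_le ⟨c0, nl_cycle⟩
    · obtain ⟨c, hc⟩ := Nat.sInf_mem (s := {k | ∃ c : Fin 23 → Fin k, IsNL (cycleGraph 23) c})
        ⟨5, c0, nl_cycle⟩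
      exact five_le _ c hc
  have hM : nlChromaticNumber (mycielski (cycleGraph 23)) ≤ 5 := Nat.sInf_le ⟨cm, nl_mycielski⟩
  refine ⟨hC, hM, fun h => ?_⟩
  have := h 23 (cycleGraph 23)
  omega

end Pool.Agent.Results.MP_03cbb9_co.MycielskiCycle
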